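import Pool.Agent.Helper72.WC.Defs

set_option autoImplicit false

namespace Pool.Agent.Helper72.WC

open Finset

variable {n : ℕ}

/-- Even splitting inside every type. -/
theorem h90_even {V T : Type*} [DecidableEq V] [DecidableEq T] {k : ℕ} (hk : 0 < k)
    (tau : V → T) (Z : Finset V) : ∃ h : V → Fin k, ∀ t i j,
      (Z.filter fun z => tau z = t ∧ h z = i).card ≤
        (Z.filter fun z => tau z = t ∧ h z = j).card + 1 := by
  induction Z using Finset.induction_on with
  | empty => exact ⟨fun _ => ⟨0, hk⟩, by simp⟩
  | insert z Z hz ih =>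
    obtain ⟨h, hh⟩ := ih
    have : Nonempty (Fin k) := ⟨⟨0, hk⟩⟩
    obtain ⟨i0, hi0⟩ := Finite.exists_min
      (fun i : Fin k => (Z.filter fun w => tau w = tau z ∧ h w = i).card)
    refine ⟨Function.update h z i0, ?_⟩
    have key : ∀ t i, ((insert z Z).filter fun w => tau w = t ∧
        Function.update h z i0 w = i).card =
        (Z.filter fun w => tau w = t ∧ h w = i).card +
          if tau z = t ∧ i0 = i then 1 else 0 := by
      intro t i
      rw [Finset.filter_insert]
      have h1 : (Z.filter fun w => tau w = t ∧ Function.update h z i0 w = i) =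
          (Z.filter fun w => tau w = t ∧ h w = i) := by
        apply Finset.filter_congr
        intro w hw
        have : w ≠ z := fun e => hz (e ▸ hw)
        rw [Function.update_of_ne this]
      rw [h1, Function.update_self]
      split_ifs with h2
      · rw [Finset.card_insert_of_notMem]
        simp [hz]
      · rfl
    intro t i j
    rw [key, key]
    by_cases ht : tau z = t
    · subst ht
      have h1 := hi0 i
      have h2 := hi0 j
      have h3 := hh (tau z) i j
      have h4 := hh (tau z) i i0
      by_cases hi : i0 = i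
      · subst hi
        by_cases hj : i0 = j
        · subst hj
          simp
        · simp only [true_and, hj, if_false, if_true]
          omega
      · simp only [true_and, hi, if_false]
        omega
    · simp only [ht, false_and, if_false]
      exact hh t i j

theorem split {L k K0 : ℕ} [NeZero L] (hk : 0 < k) {f : Fin n → Fin n}
    (hf : ∀ v, f (f v) = f v) (hK0 : ∀ v, (cl f (f v)).card ≤ K0) :
    ∃ g : Fin n → Fin k, (∀ v, g (f v) = g v) ∧ ∀ (j : Fin k) (r : ZMod L),
      (fib L (univ : Finset (Fin n)) r).card ≤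
        k * (fib L (univ.filter fun v => g v = j) r).card + k * K0 * (K0 + 1) ^ L ∧
      k * (fib L (univ.filter fun v => g v = j) r).card ≤
        (fib L (univ : Finset (Fin n)) r).card + k * K0 * (K0 + 1) ^ L := by
  classical
  set Z : Finset (Fin n) := univ.filter fun z => f z = z with hZ
  set tau : Fin n → (ZMod L → Fin (K0 + 1)) :=
    fun z r => ⟨min (fib L (cl f z) r).card K0, by omega⟩ with htau
  have htv : ∀ z ∈ Z, ∀ r, ((tau z r : Fin (K0 + 1)) : ℕ) = (fib L (cl f z) r).card := by
    intro z hz r
    simp only [hZ, mem_filter, mem_univ, true_and] at hz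
    simp only [htau]
    refine min_eq_left ?_
    refine (Finset.card_le_card (Finset.filter_subset _ _)).trans ?_
    have := hK0 z
    rwa [hz] at this
  obtain ⟨h, hh⟩ := h90_even hk tau Z
  refine ⟨fun v => h (f v), fun v => by simp only [hf], ?_⟩
  -- the numbers
  set N : (ZMod L → Fin (K0 + 1)) → Fin k → ℕ :=
    fun t j => (Z.filter fun z => tau z = t ∧ h z = j).card with hN
  have hj : ∀ (j : Fin k) (r : ZMod L),
      (fib L (univ.filter fun v => h (f v) = j) r).card =
        ∑ t : ZMod L → Fin (K0 + 1), ((t r : Fin (K0 + 1)) : ℕ) * N t j := by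
    intro j r
    rw [Finset.card_eq_sum_card_fiberwise (f := f) (t := Z.filter fun z => h z = j)]
    · rw [← Finset.sum_fiberwise (Z.filter fun z => h z = j) tau]
      refine Finset.sum_congr rfl fun t _ => ?_
      have h1 : ∀ z ∈ (Z.filter fun z => h z = j).filter fun z => tau z = t,
          ((fib L (univ.filter fun v => h (f v) = j) r).filter fun v => f v = z).card =
            ((t r : Fin (K0 + 1)) : ℕ) := by
        intro z hz
        simp only [mem_filter] at hz
        rw [← hz.2, htv z hz.1.1 r]
        congr 1
        ext v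
        simp only [fib, cl, mem_filter, mem_univ, true_and]
        constructor
        · rintro ⟨⟨_, h2⟩, h3⟩
          exact ⟨h3, h2⟩
        · rintro ⟨h3, h2⟩
          refine ⟨⟨?_, h2⟩, h3⟩
          rw [h3]
          exact hz.1.2
      rw [Finset.sum_congr rfl h1, Finset.sum_const, smul_eq_mul, mul_comm]
      congr 2
      rw [Finset.filter_filter]
      exact Finset.filter_congr fun z _ => and_comm
    · intro v hv
      simp only [fib, coe_filter, mem_filter, mem_univ, true_and, Set.mem_ofPred_eq] at hv
      simp only [hZ, coe_filter, mem_filter, mem_univ, true_and, Set.mem_ofPred_eq]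
      exact ⟨hf v, hv.1⟩
  have hu : ∀ r : ZMod L,
      (fib L (univ : Finset (Fin n)) r).card = ∑ j, ∑ t : ZMod L → Fin (K0 + 1),
        ((t r : Fin (K0 + 1)) : ℕ) * N t j := by
    intro r
    rw [Finset.card_eq_sum_card_fiberwise (f := fun v => h (f v)) (t := univ)]
    · refine Finset.sum_congr rfl fun j _ => ?_
      rw [← hj j r]
      congr 1
      ext v
      simp only [fib, mem_filter, mem_univ, true_and]
      exact and_comm
    · intro v _
      simp
  intro j r
  have hsum : ∑ t : ZMod L → Fin (K0 + 1), ((t r : Fin (K0 + 1)) : ℕ) ≤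
      K0 * (K0 + 1) ^ L := by
    refine (Finset.sum_le_card_nsmul _ _ K0 fun t _ => ?_).trans ?_
    · have := (t r).isLt
      omega
    · rw [Finset.card_univ, Fintype.card_fun, Fintype.card_fin, ZMod.card, smul_eq_mul, mul_comm]
  have hk1 : (Finset.univ : Finset (Fin k)).card = k := by simp
  constructor
  · calc (fib L (univ : Finset (Fin n)) r).card
        = ∑ i, ∑ t : ZMod L → Fin (K0 + 1), ((t r : Fin (K0 + 1)) : ℕ) * N t i := hu r
      _ ≤ ∑ _i : Fin k, ∑ t : ZMod L → Fin (K0 + 1),
            (((t r : Fin (K0 + 1)) : ℕ) * N t j + ((t r : Fin (K0 + 1)) : ℕ)) := by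
          refine Finset.sum_le_sum fun i _ => Finset.sum_le_sum fun t _ => ?_
          have := hh t i j
          calc ((t r : Fin (K0 + 1)) : ℕ) * N t i ≤ ((t r : Fin (K0 + 1)) : ℕ) * (N t j + 1) :=
                Nat.mul_le_mul_left _ this
            _ = _ := by ring
      _ = k * (∑ t : ZMod L → Fin (K0 + 1), ((t r : Fin (K0 + 1)) : ℕ) * N t j) +
            k * ∑ t : ZMod L → Fin (K0 + 1), ((t r : Fin (K0 + 1)) : ℕ) := by
          rw [Finset.sum_const, hk1, Finset.sum_add_distrib, smul_eq_mul, mul_add]
      _ ≤ k * (fib L (univ.filter fun v => h (f v) = j) r).card + k * (K0 * (K0 + 1) ^ L) := by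
          rw [hj j r]
          exact Nat.add_le_add_left (Nat.mul_le_mul_left _ hsum) _
      _ = _ := by ring
  · calc k * (fib L (univ.filter fun v => h (f v) = j) r).card
        = ∑ _i : Fin k, ∑ t : ZMod L → Fin (K0 + 1), ((t r : Fin (K0 + 1)) : ℕ) * N t j := by
          rw [hj j r, Finset.sum_const, hk1, smul_eq_mul]
      _ ≤ ∑ i : Fin k, ∑ t : ZMod L → Fin (K0 + 1),
            (((t r : Fin (K0 + 1)) : ℕ) * N t i + ((t r : Fin (K0 + 1)) : ℕ)) := by
          refine Finset.sum_le_sum fun i _ => Finset.sum_le_sum fun t _ => ?_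
          have := hh t j i
          calc ((t r : Fin (K0 + 1)) : ℕ) * N t j ≤ ((t r : Fin (K0 + 1)) : ℕ) * (N t i + 1) :=
                Nat.mul_le_mul_left _ this
            _ = _ := by ring
      _ = (∑ i : Fin k, ∑ t : ZMod L → Fin (K0 + 1), ((t r : Fin (K0 + 1)) : ℕ) * N t i) +
            k * ∑ t : ZMod L → Fin (K0 + 1), ((t r : Fin (K0 + 1)) : ℕ) := by
          simp only [Finset.sum_add_distrib]
          rw [Finset.sum_const, hk1, smul_eq_mul]
      _ ≤ (fib L (univ : Finset (Fin n)) r).card + k * (K0 * (K0 + 1) ^ L) := by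
          rw [hu r]
          exact Nat.add_le_add_left (Nat.mul_le_mul_left _ hsum) _
      _ = _ := by ring

end Pool.Agent.Helper72.WC
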